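import Pool.Agent.Q211.PF.Img
import Pool.Agent.Q211.PF.Psp

/-!
# Continuous images of `(ω + 1)`-perfect sets and small exceptional sets

The generalised Baire space `GB κ`, the games `G_κ(E, x₀, ω + 1)` (`IIWins`), `(ω + 1)`-perfect
sets (`OmegaPerfect`) and the two statements `Q1 κ`, `Q2 κ` are defined in `Pool.Agent.Q211.PF.Def`.
-/

namespace Pool.Agent.Results.MP_b008e1_lc.IndependentOfZFC

open Cardinal Set Order Pool.Agent.Q211.PF

universe u

theorem powerlt_aleph_one (h : (2 : Cardinal.{u}) ^ ℵ₀ = ℵ₁) :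
    (ℵ₁ : Cardinal.{u}) ^< ℵ₁ ≤ ℵ₁ := by
  rw [powerlt_le]
  intro x hx
  have hx' : x ≤ ℵ₀ := by
    rw [← succ_aleph0] at hx
    exact Order.lt_succ_iff.mp hx
  calc (ℵ₁ : Cardinal.{u}) ^ x ≤ ℵ₁ ^ (ℵ₀ : Cardinal.{u}) :=
        power_le_power_left (aleph_pos 1).ne' hx'
    _ = ℵ₁ := by rw [← h, ← power_mul, aleph0_mul_aleph0]

theorem kurepa_set (hCH : (2 : Cardinal.{u}) ^ ℵ₀ = ℵ₁) (hK : KurepaFamily.{u}) :
    ∃ E : Set (GB (ℵ₁ : Cardinal.{u})), IsClosed E ∧ (ℵ₁ : Cardinal.{u}) ^< ℵ₁ < #E ∧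
      SmallLevels E := by
  classical
  obtain ⟨F, hF, htr⟩ := hK
  obtain ⟨c⟩ := nonempty_idx (κ := (ℵ₁ : Cardinal.{u})) (aleph0_le_aleph 1)
  obtain ⟨d, hcd⟩ := noMax (κ := (ℵ₁ : Cardinal.{u})) (aleph0_le_aleph 1) c
  have hne : Nonempty (Idx (ℵ₁ : Cardinal.{u})) := ⟨c⟩
  let χ : Set (Idx (ℵ₁ : Cardinal.{u})) → GB (ℵ₁ : Cardinal.{u}) := fun A i => if i ∈ A then d else c
  have hχ : Function.Injective χ := by
    intro A B h
    ext i
    have h1 : (if i ∈ A then d else c) = (if i ∈ B then d else c) := congrFun h i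
    by_cases hA : i ∈ A
    · by_cases hB : i ∈ B
      · exact ⟨fun _ => hB, fun _ => hA⟩
      · rw [if_pos hA, if_neg hB] at h1
        exact absurd h1 hcd.ne'
    · by_cases hB : i ∈ B
      · rw [if_neg hA, if_pos hB] at h1
        exact absurd h1 hcd.ne
      · exact ⟨fun h => absurd h hA, fun h => absurd h hB⟩
  let E : Set (GB (ℵ₁ : Cardinal.{u})) := {x | ∀ a, ∃ A ∈ F, Agree a x (χ A)}
  refine ⟨E, ?_, ?_, ?_⟩
  · rw [isClosed_iff]
    intro x hx a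
    obtain ⟨y, hy, hxy⟩ := hx a
    obtain ⟨A, hA, hyA⟩ := hy a
    exact ⟨A, hA, hxy.trans hyA⟩
  · have h1 : #F ≤ #E := by
      refine mk_le_of_injective (f := fun A : F => (⟨χ A.1, fun a => ⟨A.1, A.2, Agree.refl _ _⟩⟩ : E)) ?_
      intro A B h
      exact Subtype.ext (hχ (congrArg Subtype.val h))
    refine (powerlt_aleph_one hCH).trans_lt (lt_of_lt_of_le ?_ (hF.trans h1))
    exact aleph_lt_aleph.mpr (by norm_num)
  · intro a
    have hcount : (range fun (x : E) (i : Iio a) => x.1 i.1).Countable := by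
      refine ((htr a).image fun s => fun i : Iio a => χ s i.1).mono ?_
      rintro f ⟨x, rfl⟩
      obtain ⟨A, hA, hxA⟩ := x.2 a
      refine ⟨A ∩ Iio a, ⟨A, hA, rfl⟩, ?_⟩
      funext i
      have h1 : x.1 i.1 = χ A i.1 := hxA i.1 i.2
      have h2 : χ (A ∩ Iio a) i.1 = χ A i.1 := by
        have : i.1 ∈ A ∩ Iio a ↔ i.1 ∈ A := ⟨fun h => h.1, fun h => ⟨h, i.2⟩⟩
        simp only [χ, this]
      exact h2.trans h1.symm
    exact lt_of_le_of_lt (le_aleph0_iff_set_countable.mpr hcount) (cantor ℵ₀)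

/-- * Every closed subset of `κ^κ` (`κ` infinite) is a continuous image of an `(ω + 1)`-perfect
  set, so Q1 and Q2 at `κ` are statements about all closed sets.
* If every closed set with more than `κ^{<κ}` points has a nonempty `(ω + 1)`-perfect subset, then
  Q1 and Q2 hold at the regular uncountable cardinal `κ`.
* If some closed set with more than `κ^{<κ}` points has fewer than `2^ℵ₀` nodes on every level
  below `κ`, then Q1 and Q2 fail at `κ`.
* In particular, under `2^ℵ₀ = ℵ₁` and the existence of a Kurepa family, Q1 and Q2 fail for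
  `κ = ω₁`. -/
theorem result :
    (∀ κ : Cardinal.{u}, ℵ₀ ≤ κ → ∀ E : Set (GB κ), IsClosed E →
      ∃ D : Set (GB κ), OmegaPerfect D ∧ ∃ f : D → E, Continuous f ∧ Function.Surjective f) ∧
    (∀ κ : Cardinal.{u}, κ.IsRegular → ℵ₀ < κ → PSP κ → Q1 κ ∧ Q2 κ) ∧
    (∀ κ : Cardinal.{u}, κ.IsRegular → ℵ₀ < κ →
      (∃ E : Set (GB κ), IsClosed E ∧ κ ^< κ < #E ∧ SmallLevels E) → ¬ Q1 κ ∧ ¬ Q2 κ) ∧
    ((2 : Cardinal.{u}) ^ ℵ₀ = ℵ₁ → KurepaFamily.{u} →
      ¬ Q1 (ℵ₁ : Cardinal.{u}) ∧ ¬ Q2 (ℵ₁ : Cardinal.{u})) :=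
  ⟨fun _ hκ E hE => (image_all hκ E hE).2,
    fun _ hκ hu hP => questions_of_psp hκ hu hP,
    fun _ hκ hu h => not_questions hκ hu h,
    fun hCH hK => not_questions isRegular_aleph_one (aleph0_lt_aleph_one) (kurepa_set hCH hK)⟩

end Pool.Agent.Results.MP_b008e1_lc.IndependentOfZFC
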